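import Pool.Agent.Run7.h534.Dom.Src

/-!
# Shifted moments of zeta in every weight `|R|²`: a lower bound of the order of the diagonal

The products `Z_{α,β}(t) = ∏ ζ(1/2 + i(t + α_j)) ζ(1/2 - i(t + β_j))` of Q1 with `β = α`, for every
`k` and uniformly in all shifts `|α_j| ≤ T / 8`: they are real and nonnegative, and their integral over
every interval `[U, U + H]` in `[T, 2T]`, `H ≥ T ^ (1 - δ)`, with the weight `|R|²` of an arbitrary
Dirichlet polynomial of length `T ^ δ` is at least `c(k)` times the integral of the same product of a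
smooth partial sum `D` of zeta of length `T ^ α`, a diagonal sum.

The theorem is a form of the theorem of helper311 (`MP_112ba8_nt.DominationEveryWeight`, library
`Pool/Agent/Run7/h311/DM`).
-/

open Complex

namespace Pool.Agent.Results.MP_fa2474_nt.DominationEveryWeight

/-- the product `Z_{α,β}(t)` of Q1 -/
noncomputable def Z {k : ℕ} (α β : Fin k → ℝ) (t : ℝ) : ℂ :=
  ∏ j, riemannZeta (1 / 2 + I * (t + α j)) * riemannZeta (1 / 2 - I * (t + β j))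

/-- the partial sum of zeta with the coefficients `V` at the point `s` -/
noncomputable def D (V : ℕ → ℝ) (N : ℕ) (s : ℂ) : ℂ :=
  ∑ n ∈ Finset.Icc 1 N, (V n : ℂ) * (n : ℂ) ^ (-s)

/-- the same product with `D` in place of zeta -/
noncomputable def ZD {k : ℕ} (V : ℕ → ℝ) (N : ℕ) (α β : Fin k → ℝ) (t : ℝ) : ℂ :=
  ∏ j, D V N (1 / 2 + I * (t + α j)) * D V N (1 / 2 - I * (t + β j))

/-- the Dirichlet polynomial `∑ r(n) n ^ (- i t)`, `n ≤ N` -/
noncomputable def R (r : ℕ → ℂ) (N : ℕ) (t : ℝ) : ℂ :=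
  ∑ n ∈ Finset.Icc 1 N, r n * (n : ℂ) ^ (-(t * I))

lemma conj_pt (x : ℝ) : (starRingEnd ℂ) (1 / 2 + (x : ℂ) * I) = 1 / 2 - I * x := by
  rw [map_add, map_mul, Complex.conj_I, Complex.conj_ofReal, map_div₀, map_one, map_ofNat]
  ring

lemma pt (t a : ℝ) : (1 / 2 + I * (t + a) : ℂ) = 1 / 2 + ((t + a : ℝ) : ℂ) * I := by
  push_cast
  ring

lemma pt' (t a : ℝ) : (1 / 2 - I * (t + a) : ℂ) = (starRingEnd ℂ) (1 / 2 + ((t + a : ℝ) : ℂ) * I) := by
  rw [conj_pt]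
  push_cast
  ring

lemma Z_eq {k : ℕ} (α : Fin k → ℝ) (t : ℝ) :
    Z α α t = ((∏ j, ‖riemannZeta (1 / 2 + (t + α j : ℝ) * I)‖ ^ 2 : ℝ) : ℂ) := by
  unfold Z
  rw [Complex.ofReal_prod]
  refine Finset.prod_congr rfl fun j _ => ?_
  rw [pt, pt', riemannZeta_conj, Complex.mul_conj, Complex.normSq_eq_norm_sq]

lemma ZD_eq {k : ℕ} (V : ℕ → ℝ) (N : ℕ) (α : Fin k → ℝ) (t : ℝ) :
    ZD V N α α t = ((∏ j, ‖Pool.Agent.Run7.h534.Dom.D V N (t + α j)‖ ^ 2 : ℝ) : ℂ) := by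
  unfold ZD
  rw [Complex.ofReal_prod]
  refine Finset.prod_congr rfl fun j _ => ?_
  have h1 : D V N (1 / 2 + I * (t + α j)) = Pool.Agent.Run7.h534.Dom.D V N (t + α j) := by
    rw [pt]
    unfold D Pool.Agent.Run7.h534.Dom.D
    rfl
  have h2 : D V N (1 / 2 - I * (t + α j)) =
      (starRingEnd ℂ) (Pool.Agent.Run7.h534.Dom.D V N (t + α j)) := by
    rw [pt']
    unfold D Pool.Agent.Run7.h534.Dom.D
    rw [map_sum]
    refine Finset.sum_congr rfl fun n hn => ?_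
    rw [map_mul, Complex.conj_ofReal, ← map_neg, Complex.cpow_conj _ _ (by
      rw [Complex.natCast_arg]
      exact Real.pi_pos.ne), Complex.conj_natCast]
  rw [h1, h2, Complex.mul_conj, Complex.normSq_eq_norm_sq]

theorem result (k : ℕ) : ∃ δ η c T₀ : ℝ, 0 < δ ∧ 0 < η ∧ 0 < c ∧ ∀ T : ℝ, T₀ ≤ T →
    ∃ V : ℕ → ℝ, (∀ n, 0 ≤ V n ∧ V n ≤ 1) ∧ (∀ n : ℕ, (n : ℝ) ≤ T ^ (η / 2) → V n = 1) ∧
    (∀ n : ℕ, T ^ η ≤ n → V n = 0) ∧
    ∀ (α : Fin k → ℝ) (N : ℕ) (r : ℕ → ℂ) (U H : ℝ), (∀ j, |α j| ≤ T / 8) → (N : ℝ) ≤ T ^ δ →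
      T ≤ U → U + H ≤ 2 * T → T ^ (1 - δ) ≤ H →
      ∃ x y : ℝ, 0 ≤ y ∧ c * y ≤ x ∧
        (x : ℂ) = ∫ t in U..(U + H), Z α α t * ((‖R r N t‖ ^ 2 : ℝ) : ℂ) ∧
        (y : ℂ) = ∫ t in U..(U + H), ZD V ⌊T ^ η⌋₊ α α t * ((‖R r N t‖ ^ 2 : ℝ) : ℂ) := by
  obtain ⟨δ, η, c, T₀, hδ, hη, hc, h⟩ := Pool.Agent.Run7.h534.Dom.dom k
  refine ⟨δ, η, c, max T₀ 0, hδ, hη, hc, fun T hT => ?_⟩
  obtain ⟨V, hV, hV1, hV0, hm⟩ := h T ((le_max_left _ _).trans hT)
  have hT0 : 0 ≤ T := (le_max_right _ _).trans hT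
  refine ⟨V, hV, hV1, hV0, fun α N r U H hα hN hU hUH hH => ?_⟩
  have hH0 : 0 ≤ H := le_trans (by positivity) hH
  refine ⟨_, _, ?_, hm α N r U H hα hN hU hUH hH, ?_, ?_⟩
  · exact intervalIntegral.integral_nonneg (by linarith) fun t _ => by positivity
  · rw [← intervalIntegral.integral_ofReal]
    refine intervalIntegral.integral_congr fun t _ => ?_
    simp only [Z_eq, ← Complex.ofReal_mul]
    rfl
  · rw [← intervalIntegral.integral_ofReal]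
    refine intervalIntegral.integral_congr fun t _ => ?_
    simp only [ZD_eq, ← Complex.ofReal_mul]
    rfl

end Pool.Agent.Results.MP_fa2474_nt.DominationEveryWeight
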