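import Pool.Agent.Run7.h290.SH.M

set_option autoImplicit false

/-!
# MP_fa2474_nt: the vector of shifted values near the critical line under the moment measures

Let `δ(T) → 0+` with `δ log T / log² (1/δ) → ∞`, and `Z(t) = (ζ(1/2 + δ + i(t + h_j)))_{1 ≤ j ≤ m}`, where the shifts
`h_j = h_j(T)` are such that `δ |ζ(1 + 2δ + i(h_i - h_l))| → 0` for `i ≠ l`. This holds if the shifts are bounded and
`|h_i - h_l| / δ → ∞`, in particular for fixed distinct shifts.

* For all `k > 0` and all continuous `Φ : ℂ^m → ℝ` which are homogeneous of degree `2k`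
  (`Φ(r z) = r^(2k) Φ(z)` for `r > 0`), the mean of `Φ(Z(t))`, times `(2δ)^(k²)`, tends to
  `a(k) ∑_j (1/2π) ∫_0^(2π) Φ(0, …, e^(iθ), …, 0) dθ` (`e^(iθ)` at the place `j`); here the mean is over the points of `[0, T]`
  at which no shifted value is larger than `(2δ)^(-V)`, for any `V > k`, and `|h_j| ≤ T^(1/2)`. For `k ≤ 2` and bounded
  shifts the mean is over all of `[0, T]`.
* So under the measure `|Z(t)|^(2k) dt` the direction of the vector `Z(t)` tends to be on one of the `m` coordinate axes, each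
  with the same probability, and the phase is uniform.
* Cases: `Φ(z) = |∑ c_j z_j|^(2k)`, with the limit `a(k) ∑ |c_j|^(2k)` (moments of linear combinations of shifts), and
  `Φ(z) = max |z_j|^(2k)`, with the limit `a(k) m`.
-/

open Filter Topology MeasureTheory

namespace Pool.Agent.Results.MP_fa2474_nt.ShiftVectors

/-- the coefficients `Γ(k + m) / (Γ(k) m!)` of `(1 - x)^(-k)` -/
noncomputable def dd (k : ℝ) (m : ℕ) : ℝ := Real.Gamma (k + m) / (Real.Gamma k * (m.factorial : ℝ))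

/-- the arithmetic factor of the conjecture for the moment of order `2k` -/
noncomputable def ak (k : ℝ) : ℝ :=
  ∏' p : Nat.Primes, ((1 - 1 / (p : ℝ)) ^ (k ^ 2) * ∑' m : ℕ, dd k m ^ 2 / (p : ℝ) ^ m)

/-- `ζ(1/2 + δ + it)` -/
noncomputable def z (δ t : ℝ) : ℂ := riemannZeta (1 / 2 + δ + Complex.I * (t : ℂ))

/-- `|ζ(1 + 2δ + iu)|` -/
noncomputable def w (δ u : ℝ) : ℝ := ‖riemannZeta (1 + 2 * δ + Complex.I * (u : ℂ))‖

/-- the points of `[0, T]` at which no shifted value is larger than `(2δ)^(-V)` -/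
def good {m : ℕ} (V δ : ℝ) (h : Fin m → ℝ) (T : ℝ) : Set ℝ :=
  {t : ℝ | t ∈ Set.Icc 0 T ∧ ∀ j, ‖z δ (t + h j)‖ ≤ (2 * δ) ^ (-V)}

/-- `(2δ)^(k²) (1/T) ∫_S Φ(Z(t)) dt` -/
noncomputable def mean {m : ℕ} (k δ T : ℝ) (h : Fin m → ℝ) (Φ : (Fin m → ℂ) → ℝ) (S : Set ℝ) : ℝ :=
  (2 * δ) ^ (k ^ 2) * ((1 / T) * ∫ t in S, Φ fun j => z δ (t + h j))

/-- `∫_0^1 Φ(0, …, exp(2πiθ), …, 0) dθ`, with `exp(2πiθ)` at the place `j` -/
noncomputable def axis {m : ℕ} (Φ : (Fin m → ℂ) → ℝ) (j : Fin m) : ℝ :=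
  ∫ θ in (0:ℝ)..1, Φ (Pi.single j (Complex.exp (2 * Real.pi * Complex.I * θ)))

/-- the means tend to `L`: over the good points, and, for `k ≤ 2` and bounded shifts, over `[0, T]` -/
def Conv {m : ℕ} (δ : ℝ → ℝ) (h : ℝ → Fin m → ℝ) (k : ℝ) (Φ : (Fin m → ℂ) → ℝ) (L : ℝ) : Prop :=
  ((∀ᶠ T : ℝ in atTop, ∀ j, |h T j| ≤ T ^ ((1:ℝ) / 2)) → ∀ V : ℝ, k < V →
    Tendsto (fun T : ℝ => mean k (δ T) T (h T) Φ (good V (δ T) (h T) T)) atTop (𝓝 L)) ∧
  (k ≤ 2 → (∃ B : ℝ, ∀ᶠ T : ℝ in atTop, ∀ j, |h T j| ≤ B) →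
    Tendsto (fun T : ℝ => mean k (δ T) T (h T) Φ (Set.Icc 0 T)) atTop (𝓝 L))

theorem result (δ : ℝ → ℝ) (hδ0 : ∀ᶠ T in atTop, 0 < δ T) (hδ : Tendsto δ atTop (𝓝 0))
    (hδL : Tendsto (fun T : ℝ => δ T * Real.log T / Real.log (1 / δ T) ^ 2) atTop atTop) :
    (∀ (B : ℝ) (u : ℝ → ℝ), (∀ᶠ T in atTop, |u T| ≤ B) → Tendsto (fun T => |u T| / δ T) atTop atTop →
      Tendsto (fun T => δ T * w (δ T) (u T)) atTop (𝓝 0)) ∧
    ∀ (m : ℕ) (h : ℝ → Fin m → ℝ),
      (∀ i l : Fin m, i ≠ l → Tendsto (fun T => δ T * w (δ T) (h T i - h T l)) atTop (𝓝 0)) →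
      ∀ k : ℝ, 0 < k → 0 < ak k ∧
        (∀ Φ : (Fin m → ℂ) → ℝ, Continuous Φ → (∀ r : ℝ, 0 < r → ∀ x : Fin m → ℂ, Φ (fun j => (r : ℂ) * x j) = r ^ (2 * k) * Φ x) →
          Conv δ h k Φ (ak k * ∑ j, axis Φ j)) ∧
        (∀ c : Fin m → ℂ, Conv δ h k (fun x => ‖∑ j, c j * x j‖ ^ (2 * k)) (ak k * ∑ j, ‖c j‖ ^ (2 * k))) ∧
        Conv δ h k (fun x => ‖x‖ ^ (2 * k)) (ak k * m) := by
  have e1 : ∀ k : ℝ, 0 < k → ∀ m : ℕ, dd k m = Pool.Agent.H306R2.lc k m := by
    intro k hk m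
    unfold dd
    have hG : Real.Gamma k ≠ 0 := (Real.Gamma_pos_of_pos hk).ne'
    induction m with
    | zero =>
      unfold Pool.Agent.H306R2.lc
      simp [hG]
    | succ m ih =>
      have h1 : Pool.Agent.H306R2.lc k (m + 1) = Pool.Agent.H306R2.lc k m * ((k + m) / ((m : ℝ) + 1)) := by
        unfold Pool.Agent.H306R2.lc
        rw [Finset.prod_range_succ]
      have hkm : k + (m : ℝ) ≠ 0 := by positivity
      have h2 : Real.Gamma (k + ((m + 1 : ℕ) : ℝ)) = (k + m) * Real.Gamma (k + m) := by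
        rw [← Real.Gamma_add_one hkm]
        congr 1
        push_cast
        ring
      have hf : (m.factorial : ℝ) ≠ 0 := by positivity
      rw [h1, ← ih, h2, Nat.factorial_succ]
      push_cast
      field_simp
  have e3 : ∀ k : ℝ, 0 < k → ak k = Pool.Agent.H306R2.aF k := by
    intro k hk
    unfold ak Pool.Agent.H306R2.aF
    refine tprod_congr fun p => ?_
    simp_rw [e1 k hk, one_div, inv_pow, div_eq_mul_inv]
  have e4 : ∀ k : ℝ, 0 < k → (Pool.Agent.N748.MG.aC k).re = ak k := by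
    intro k hk
    rw [e3 k hk]
    exact Pool.Agent.Run7.h290.SH.aC_aF k
  have ez : ∀ d t : ℝ, z d t = riemannZeta (Pool.Agent.N748.MG.pw d t) := by
    intro d t
    unfold z Pool.Agent.N748.MG.pw
    congr 1
    ring
  have ew : ∀ d u : ℝ, w d u = Pool.Agent.Run7.h290.SH.Zo d u := by
    intro d u
    unfold w Pool.Agent.Run7.h290.SH.Zo
    congr 2
    push_cast
    ring
  have hd : Pool.Agent.N748.MG.Ad δ := ⟨hδ0, hδ, hδL⟩
  refine ⟨?_, ?_⟩
  · intro B u hB hu
    simp_rw [ew]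
    exact Pool.Agent.Run7.h290.SH.adm_shift hδ0 hδ hB hu
  intro m h hs k hk
  simp_rw [ew] at hs
  have evec : ∀ (d t : ℝ) (H : Fin m → ℝ), (fun j => z d (t + H j)) = Pool.Agent.Run7.h290.SH.vec d H t := by
    intro d t H
    funext j
    rw [ez]
    rfl
  have egood : ∀ (V d : ℝ) (H : Fin m → ℝ) (T : ℝ), good V d H T = Pool.Agent.Run7.h290.SH.Gs V H d T := by
    intro V d H T
    unfold good Pool.Agent.Run7.h290.SH.Gs Pool.Agent.N748.MG.mz
    simp_rw [ez]
  have main : ∀ Φ : (Fin m → ℂ) → ℝ, Continuous Φ →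
      (∀ r : ℝ, 0 < r → ∀ x : Fin m → ℂ, Φ (fun j => (r : ℂ) * x j) = r ^ (2 * k) * Φ x) →
      Conv δ h k Φ (ak k * ∑ j, axis Φ j) := by
    intro Φ hc hH
    refine ⟨fun hh V hV => ?_, ?_⟩
    · have h1 := Pool.Agent.Run7.h290.SH.hom_trunc Pool.Agent.N748.MJ.jmF Pool.Agent.N748.MJ.posF Pool.Agent.N748.MJ.LZB.main
        hd hh hs hc hk hV hH
      rw [e4 k hk] at h1
      refine h1.congr fun T => ?_
      unfold mean
      simp_rw [evec, egood]
    · rintro hk2 ⟨B, hB⟩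
      have h1 := Pool.Agent.Run7.h290.SH.hom_full hd hs (abs_nonneg B) (hB.mono fun T hT j => (hT j).trans (le_abs_self B)) hc hk hk2 hH
      rw [e4 k hk] at h1
      refine h1.congr fun T => ?_
      unfold mean
      simp_rw [evec]
  have hk2 : (0:ℝ) < 2 * k := by linarith
  refine ⟨by rw [e3 k hk]; exact Pool.Agent.H306R2.aF_pos hk, main, fun c => ?_, ?_⟩
  · have h1 := main (fun x => ‖∑ j, c j * x j‖ ^ (2 * k))
      (((continuous_finsetSum _ fun j _ => continuous_const.mul (continuous_apply j)).norm).rpow_const fun _ => Or.inr hk2.le)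
      (fun r hr x => by
        have : ∑ j, c j * ((r : ℂ) * x j) = (r : ℂ) * ∑ j, c j * x j := by
          rw [Finset.mul_sum]
          exact Finset.sum_congr rfl fun j _ => by ring
        simp only [this]
        rw [norm_mul, Complex.norm_real, Real.norm_of_nonneg hr.le, Real.mul_rpow hr.le (norm_nonneg _)])
    have h2 : ∀ j : Fin m, axis (fun x => ‖∑ j, c j * x j‖ ^ (2 * k)) j = ‖c j‖ ^ (2 * k) := by
      intro j
      unfold axis
      have h3 : ∀ θ : ℝ, ‖∑ i, c i * (Pi.single j (Complex.exp (2 * Real.pi * Complex.I * θ)) : Fin m → ℂ) i‖ ^ (2 * k) = ‖c j‖ ^ (2 * k) := by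
        intro θ
        rw [Finset.sum_eq_single j]
        · rw [Pi.single_eq_same, norm_mul]
          have : (2 * Real.pi * Complex.I * θ : ℂ) = ((2 * Real.pi * θ : ℝ) : ℂ) * Complex.I := by
            push_cast
            ring
          rw [this, Complex.norm_exp_ofReal_mul_I, mul_one]
        · intro i _ hi
          rw [Pi.single_eq_of_ne hi, mul_zero]
        · intro hc
          exact absurd (Finset.mem_univ j) hc
      simp_rw [h3]
      simp
    simp_rw [h2] at h1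
    exact h1
  · have h1 := main (fun x => ‖x‖ ^ (2 * k)) (continuous_norm.rpow_const fun _ => Or.inr hk2.le)
      (fun r hr x => by
        have : (fun j => (r : ℂ) * x j) = (r : ℂ) • x := rfl
        rw [this, norm_smul, Complex.norm_real, Real.norm_of_nonneg hr.le, Real.mul_rpow hr.le (norm_nonneg _)])
    have h2 : ∀ j : Fin m, axis (fun x : Fin m → ℂ => ‖x‖ ^ (2 * k)) j = 1 := by
      intro j
      unfold axis
      have h3 : ∀ θ : ℝ, ‖(Pi.single j (Complex.exp (2 * Real.pi * Complex.I * θ)) : Fin m → ℂ)‖ ^ (2 * k) = 1 := by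
        intro θ
        have : (2 * Real.pi * Complex.I * θ : ℂ) = ((2 * Real.pi * θ : ℝ) : ℂ) * Complex.I := by
          push_cast
          ring
        rw [Pi.norm_single, this, Complex.norm_exp_ofReal_mul_I, Real.one_rpow]
      simp_rw [h3]
      simp
    simp_rw [h2] at h1
    simpa using h1

end Pool.Agent.Results.MP_fa2474_nt.ShiftVectors
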