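import Pool.Agent.Run7.h518.SW.Untr

/-!
# The recipe for shifted moments in almost all windows near the critical line

For real shifts `a_1, …, a_k` and `b_1, …, b_l` let

`Z(u) = ∏_j ζ(1/2 + δ + i (u + a_j)) ∏_j ζ(1/2 + δ - i (u + b_j))`

be the product of Conrey, Farmer, Keating, Rubinstein and Snaith at distance `δ` from the critical
line, and let `diag = ∑ τ_{-ia}(n) τ_{ib}(n) n^(-1-2δ)` be the first term of the recipe.

Unconditionally, for all `k, l`, uniformly in `C loglog T / log T ≤ δ ≤ 1/24` and in all real shifts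
of absolute value at most `T/2`, and WITHOUT truncation:

* the `t` in `(0, T]` for which the mean value of `Z` over some window `[t, t + H]` with
  `H₀ ≤ H ≤ T^(cδ)` differs from `diag` by more than `η` have measure at most
  `T (R δ^(-K) / (η² √H₀) + (1 + 1/η²) (log T)^(-B))`;
* for every `D` there is `F` such that for all `t` in `(0, T]` outside a set of measure at most
  `T (log T)^(-D)`, all windows `[t, t + H]` with `(log T)^F ≤ H ≤ T^(cδ)` at once have mean value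
  `diag + O((log T)^(-D))`.
-/

set_option autoImplicit false

namespace Pool.Agent.Results.MP_fa2474_nt.ShiftedProductInWindows

open MeasureTheory Finset

noncomputable section

/-- The point `1/2 + δ + i t`. -/
def pt (δ t : ℝ) : ℂ := ((1 / 2 + δ : ℝ) : ℂ) + (t : ℂ) * Complex.I

/-- The function `n ↦ n^(-i c)` on the positive integers. -/
def power (c : ℝ) : ArithmeticFunction ℂ :=
  ⟨fun n => if n = 0 then 0 else (n : ℂ) ^ (-((c : ℂ) * Complex.I)), by simp⟩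

/-- `τ_{-ia}(n) = ∑_{d_1 ⋯ d_k = n} ∏_j d_j^(-i a_j)`, the Dirichlet convolution of the functions
`n ↦ n^(-i a_j)`. -/
def tau {k : ℕ} (a : Fin k → ℝ) : ArithmeticFunction ℂ := ∏ j, power (a j)

/-- The Dirichlet series `∑ τ_{-ia}(n) τ_{ib}(n) n^(-1-2δ)`, the value `ζ_(a,b)(1/2 + δ)`. -/
def diag (δ : ℝ) {k l : ℕ} (a : Fin k → ℝ) (b : Fin l → ℝ) : ℂ :=
  ∑' n : ℕ, tau a n * (starRingEnd ℂ) (tau b n) * (((n : ℝ) ^ (-1 - 2 * δ) : ℝ) : ℂ)

/-- The shifted product `∏_j ζ(1/2 + δ + i (u + a_j)) ∏_j ζ(1/2 + δ - i (u + b_j))`. -/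
def Z (δ : ℝ) {k l : ℕ} (a : Fin k → ℝ) (b : Fin l → ℝ) (u : ℝ) : ℂ :=
  (∏ j, riemannZeta (pt δ (u + a j))) * ∏ j, riemannZeta (pt δ (-(u + b j)))

/-- The mean value of `f` over the window `[t, t + H]`. -/
def mean (f : ℝ → ℂ) (H t : ℝ) : ℂ := (1 / (H : ℂ)) * ∫ u in t..(t + H), f u

/-- The `t` in `(0, T]` for which the mean value of `f` over some window `[t, t + H]` with
`H₀ ≤ H ≤ H₁` differs from `d` by more than `η`. -/
def exc (f : ℝ → ℂ) (d : ℂ) (T H₀ H₁ η : ℝ) : Set ℝ :=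
  {t | t ∈ Set.Ioc 0 T ∧ ∃ H : ℝ, H₀ ≤ H ∧ H ≤ H₁ ∧ η < ‖mean f H t - d‖}

lemma pt_neg (δ x : ℝ) : riemannZeta (pt δ (-x)) = (starRingEnd ℂ) (riemannZeta (pt δ x)) := by
  rw [← riemannZeta_conj]
  congr 1
  unfold pt
  simp only [map_add, map_mul, Complex.conj_ofReal, Complex.conj_I]
  push_cast
  ring

lemma Z_eq (δ : ℝ) {k l : ℕ} (a : Fin k → ℝ) (b : Fin l → ℝ) :
    Z δ a b = Run7.h518.SW.ZZ δ a b := by
  funext u
  unfold Z Run7.h518.SW.ZZ
  simp_rw [pt_neg]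
  rw [map_prod]
  rfl

lemma tau_eq {m : ℕ} (x : Fin m → ℝ) : Pool.Agent.Y746.CS.Tk x = tau x := by
  have htw : ∀ c : ℝ, Pool.Agent.Y746.CS.tw1 1 c = power c := by
    intro c
    ext n
    show (Pool.Agent.H306R2.dv 1 n : ℂ) * (n : ℂ) ^ (-((c : ℂ) * Complex.I)) =
      if n = 0 then 0 else (n : ℂ) ^ (-((c : ℂ) * Complex.I))
    split_ifs with h0
    · subst h0
      simp [Pool.Agent.H306R2.dv]
    · have := Pool.Agent.Y746.OA.dA_one_apply (Nat.one_le_iff_ne_zero.mpr h0)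
      rw [Pool.Agent.H306R2.dA_apply] at this
      rw [this]
      simp
  unfold Pool.Agent.Y746.CS.Tk tau
  exact prod_congr rfl fun j _ => htw (x j)

lemma diag_eq (δ : ℝ) {k l : ℕ} (a : Fin k → ℝ) (b : Fin l → ℝ) :
    diag δ a b = Run7.h518.SW.dd (Pool.Agent.Y746.CS.Tk a) (Pool.Agent.Y746.CS.Tk b) δ := by
  unfold diag Run7.h518.SW.dd Run7.h518.SW.w
  rw [tau_eq, tau_eq]

lemma mean_eq (f : ℝ → ℂ) {H : ℝ} (hH : 0 ≤ H) (t : ℝ) : mean f H t = Run7.h518.SW.wm f H t := by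
  unfold mean Run7.h518.SW.wm
  rw [← intervalIntegral.integral_of_le hH, intervalIntegral.integral_comp_add_left, add_zero]

lemma exc_eq (f : ℝ → ℂ) (d : ℂ) {T H₀ H₁ η : ℝ} (hH : 1 ≤ H₀) : exc f d T H₀ H₁ η =
    {t | t ∈ Set.Ioc 0 T ∧ ∃ H : ℝ, H₀ ≤ H ∧ H ≤ H₁ ∧ η < ‖Run7.h518.SW.wm f H t - d‖} := by
  ext t
  constructor
  · rintro ⟨h1, H, h2, h3, h4⟩
    rw [mean_eq f (by linarith)] at h4
    exact ⟨h1, H, h2, h3, h4⟩
  · rintro ⟨h1, H, h2, h3, h4⟩
    rw [← mean_eq f (by linarith)] at h4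
    exact ⟨h1, H, h2, h3, h4⟩

/-- The recipe in almost all windows near the critical line. -/
theorem result : ∀ k l : ℕ, ∃ (c R : ℝ) (K : ℕ), 0 < c ∧
    (∀ B : ℕ, ∃ C T₀ : ℝ, ∀ T : ℝ, T₀ ≤ T →
      ∀ δ : ℝ, C * Real.log (Real.log T) / Real.log T ≤ δ → δ ≤ 1 / 24 →
      ∀ (a : Fin k → ℝ) (b : Fin l → ℝ), (∀ j, |a j| ≤ T / 2) → (∀ j, |b j| ≤ T / 2) →
      ∀ H₀ η : ℝ, 1 ≤ H₀ → 0 < η →
      volume (exc (Z δ a b) (diag δ a b) T H₀ (T ^ (c * δ)) η) ≤
        ENNReal.ofReal (T * (R * (1 / δ) ^ K / (η ^ 2 * Real.sqrt H₀) +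
          (1 + 1 / η ^ 2) / Real.log T ^ B))) ∧
    (∀ D : ℕ, ∃ (F : ℕ) (C T₀ : ℝ), ∀ T : ℝ, T₀ ≤ T →
      ∀ δ : ℝ, C * Real.log (Real.log T) / Real.log T ≤ δ → δ ≤ 1 / 24 →
      Real.log T ^ F ≤ T ^ (c * δ) ∧
      ∀ (a : Fin k → ℝ) (b : Fin l → ℝ), (∀ j, |a j| ≤ T / 2) → (∀ j, |b j| ≤ T / 2) →
      volume (exc (Z δ a b) (diag δ a b) T (Real.log T ^ F) (T ^ (c * δ)) (1 / Real.log T ^ D)) ≤
        ENNReal.ofReal (T / Real.log T ^ D)) := by
  intro k l
  obtain ⟨c, hc, h1⟩ := Run7.h518.SW.untr k l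
  set K : ℕ := Run7.h518.SW.KK k l with hK
  set R : ℝ := 48 * Run7.h518.SW.R0 * 2 ^ K with hR
  have hR0 := Run7.h518.SW.R0_nonneg
  have hx : ∀ δ : ℝ, (2 / δ) ^ K = 2 ^ K * (1 / δ) ^ K := by
    intro δ
    rw [← mul_pow]
    congr 1
    ring
  refine ⟨c, R, K, hc, ?_, ?_⟩
  · intro B
    obtain ⟨C, T0, hC, hT0, g⟩ := h1 B
    refine ⟨C, T0, fun T hT δ hδ hδ1 a b ha hb H₀ η hH₀ hη => ?_⟩
    obtain ⟨hL3, hTp, hδ0, h2δ⟩ := Run7.h518.SW.params hC (hT0.trans hT) hδ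
    have hTe : 1 ≤ T := by
      by_contra hlt
      have : Real.log T ≤ 0 := Real.log_nonpos hTp.le (by linarith)
      linarith
    have g2 := (g T hT δ hδ hδ1).2 a b ha hb H₀ η hH₀ hη
    rw [exc_eq _ _ hH₀, Z_eq, diag_eq]
    refine g2.trans (ENNReal.ofReal_le_ofReal (le_of_eq ?_))
    have hs : 0 < Real.sqrt H₀ := Real.sqrt_pos.2 (by linarith)
    rw [hx, hR]
    field_simp
    ring
  · intro D
    set F : ℕ := 2 * (K + 3 * D + 1) with hF
    obtain ⟨C, T0, hC, hT0, g⟩ := h1 F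
    refine ⟨F, C, max T0 (Real.exp (48 * Run7.h518.SW.R0 + 2)),
      fun T hT δ hδ hδ1 => ?_⟩
    have hTT : T0 ≤ T := (le_max_left _ _).trans hT
    have hTT2 : Real.exp (48 * Run7.h518.SW.R0 + 2) ≤ T := (le_max_right _ _).trans hT
    obtain ⟨hL3, hTp, hδ0, h2δ⟩ := Run7.h518.SW.params hC (hT0.trans hTT) hδ
    have hTe : 1 ≤ T := by
      by_contra hlt
      have : Real.log T ≤ 0 := Real.log_nonpos hTp.le (by linarith)
      linarith
    have hLR : 48 * Run7.h518.SW.R0 + 2 ≤ Real.log T := (Real.le_log_iff_exp_le hTp).2 hTT2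
    set L : ℝ := Real.log T with hL
    have hL0 : 0 < L := by linarith
    have hL1 : 1 ≤ L := by linarith
    refine ⟨(g T hTT δ hδ hδ1).1, ?_⟩
    · intro a b ha hb
      have hF1 : 1 ≤ L ^ F := one_le_pow₀ hL1
      have hD0 : 0 < 1 / L ^ D := by positivity
      have g2 := (g T hTT δ hδ hδ1).2 a b ha hb (L ^ F) (1 / L ^ D) hF1 hD0
      rw [exc_eq _ _ hF1, Z_eq, diag_eq]
      refine g2.trans (ENNReal.ofReal_le_ofReal ?_)
      · have hsq : Real.sqrt (L ^ F) = L ^ (K + 3 * D + 1) := by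
          rw [hF, mul_comm 2, pow_mul, Real.sqrt_sq (by positivity)]
        have hxK : (2 / δ) ^ K ≤ L ^ K := pow_le_pow_left₀ (by positivity) h2δ _
        rw [hsq]
        have e1 : (1:ℝ) / (1 / L ^ D) ^ 2 = L ^ (2 * D) := by
          rw [one_div_pow, one_div_one_div, ← pow_mul, mul_comm]
        rw [e1]
        have e2 : (2 / δ) ^ K / L ^ (K + 3 * D + 1) ≤ 1 / L ^ (3 * D + 1) := by
          rw [show K + 3 * D + 1 = K + (3 * D + 1) by ring, pow_add,
            div_le_div_iff₀ (by positivity) (by positivity), one_mul]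
          exact mul_le_mul_of_nonneg_right hxK (by positivity)
        have e3 : 1 / L ^ F ≤ 1 / L ^ (3 * D + 1) := by
          refine one_div_le_one_div_of_le (by positivity) ?_
          exact pow_le_pow_right₀ hL1 (by omega)
        have e4 : L ^ (2 * D) * (1 / L ^ (3 * D + 1)) = 1 / L ^ (D + 1) := by
          rw [show 3 * D + 1 = 2 * D + (D + 1) by ring, pow_add]
          field_simp
        have e5 : 1 / L ^ (3 * D + 1) ≤ 1 / L ^ (D + 1) := by
          refine one_div_le_one_div_of_le (by positivity) ?_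
          exact pow_le_pow_right₀ hL1 (by omega)
        have e6 : L ^ (2 * D) * (48 * Run7.h518.SW.R0 * ((2 / δ) ^ K / L ^ (K + 3 * D + 1)) +
            1 / L ^ F) + 1 / L ^ F ≤ (48 * Run7.h518.SW.R0 + 2) * (1 / L ^ (D + 1)) := by
          calc L ^ (2 * D) * (48 * Run7.h518.SW.R0 * ((2 / δ) ^ K / L ^ (K + 3 * D + 1)) +
                1 / L ^ F) + 1 / L ^ F ≤
              L ^ (2 * D) * (48 * Run7.h518.SW.R0 * (1 / L ^ (3 * D + 1)) +
                1 / L ^ (3 * D + 1)) + 1 / L ^ (D + 1) := by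
                gcongr
                omega
            _ = (48 * Run7.h518.SW.R0 + 1) * (L ^ (2 * D) * (1 / L ^ (3 * D + 1))) +
                1 / L ^ (D + 1) := by ring
            _ = _ := by
                rw [e4]
                ring
        calc T * (L ^ (2 * D) * (48 * Run7.h518.SW.R0 * ((2 / δ) ^ K / L ^ (K + 3 * D + 1)) +
              1 / L ^ F) + 1 / L ^ F) ≤ T * ((48 * Run7.h518.SW.R0 + 2) * (1 / L ^ (D + 1))) :=
              mul_le_mul_of_nonneg_left e6 hTp.le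
          _ ≤ T * (L * (1 / L ^ (D + 1))) := by gcongr
          _ = T / L ^ D := by
              rw [pow_succ]
              field_simp

end

end Pool.Agent.Results.MP_fa2474_nt.ShiftedProductInWindows
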